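import Pool.Agent.FRE.Stmts

set_option autoImplicit false

/-!
# Squad FRE, row FRE: Freiman's theorem for finite sets of complex numbers
-/

namespace Pool.Agent.FRE.H23

theorem card_le_of_plu {A S : Finset ℂ} (hA : A.Nonempty)
    (hS : ∀ x y : Fin 8 → ℂ, (∀ i, x i ∈ A) → (∀ i, y i ∈ A) → ∑ i, x i - ∑ i, y i ∈ S) :
    A.card ≤ S.card := by
  obtain ⟨a₀, ha₀⟩ := hA
  refine Finset.card_le_card_of_injOn (fun a => a - a₀) ?_ ?_
  · intro a ha
    have h1 := hS (fun i => if i = 0 then a else a₀) (fun _ => a₀)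
      (fun i => by split_ifs <;> assumption) (fun _ => ha₀)
    have h2 : ∑ i : Fin 8, (if i = 0 then a else a₀) - ∑ _i : Fin 8, a₀ = a - a₀ := by
      rw [← Finset.sum_sub_distrib]
      have h3 : ∀ i : Fin 8, (if i = 0 then a else a₀) - a₀ = if i = 0 then a - a₀ else 0 := by
        intro i
        split_ifs <;> simp
      simp only [h3, Finset.sum_ite_eq', Finset.mem_univ, if_true]
    rw [h2] at h1
    exact h1
  · intro a _ b _ h
    exact sub_left_injective h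

theorem inj_of_iso {N : ℕ} {A : Finset ℂ} {g : ℂ → ZMod N} (h : Iso8 A g) :
    Set.InjOn g (A : Set ℂ) := by
  intro a ha b hb hab
  have h1 := (h (fun _ => a) (fun _ => b) (fun _ => ha) (fun _ => hb)).1 (by simp only [hab])
  simp only [Finset.sum_const, Finset.card_univ, Fintype.card_fin, nsmul_eq_mul] at h1
  have h8 : ((8 : ℕ) : ℂ) ≠ 0 := by norm_num
  exact mul_left_cancel₀ h8 h1

theorem fre (hPLU : PluStmt) (hMOD : ModStmt) (hBOG : BogStmt) (hBPR : BprStmt)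
    (hPUL : PulStmt) (hCVR : CvrStmt) : FreStmt := by
  classical
  intro K
  have hK1 : (1 : ℝ) ≤ max K 1 := le_max_right _ _
  have hKK : K ≤ max K 1 := le_max_left _ _
  generalize max K 1 = K₁ at hK1 hKK
  have hK0 : 0 < K₁ := by linarith
  obtain ⟨c, hc, hbpr⟩ := hBPR ⌊2 / (1 / (24 * K₁ ^ 16)) ^ 2⌋₊ 4
  obtain ⟨d, C, hC, hcvr⟩ := hCVR K₁ c (⌊2 / (1 / (24 * K₁ ^ 16)) ^ 2⌋₊ + 1) hK0 hc
  refine ⟨d, C, hC, ?_⟩
  intro A hA hsm
  have hsm1 : (sms A : ℝ) ≤ K₁ * A.card :=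
    hsm.trans (mul_le_mul_of_nonneg_right hKK (Nat.cast_nonneg _))
  obtain ⟨S, hS1, hS2⟩ := hPLU A K₁ 8 8 hA hsm1
  have hAS : A.card ≤ S.card := card_le_of_plu hA hS2
  have hA1 : 1 ≤ A.card := hA.card_pos
  obtain ⟨N, hN⟩ : ∃ N, N = 2 * S.card + 1 := ⟨_, rfl⟩
  haveI : NeZero N := ⟨by omega⟩
  obtain ⟨A', g, hA'A, hA'c, hiso⟩ := hMOD A S N (by omega) hS2
  have hBc : (A'.image g).card = A'.card := Finset.card_image_of_injOn (inj_of_iso hiso)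
  have hα : (0 : ℝ) < 1 / (24 * K₁ ^ 16) := by positivity
  have hA1r : (1 : ℝ) ≤ A.card := by exact_mod_cast hA1
  have hK16 : (1 : ℝ) ≤ K₁ ^ 16 := one_le_pow₀ hK1
  have hNle : (N : ℝ) ≤ 3 * (K₁ ^ 16 * A.card) := by
    have h1 : (N : ℝ) = 2 * S.card + 1 := by
      rw [hN]
      push_cast
      ring
    have h2 : (1 : ℝ) ≤ K₁ ^ 16 * A.card := by nlinarith
    have h3 : (S.card : ℝ) ≤ K₁ ^ 16 * A.card := by
      have h4 : K₁ ^ (8 + 8) = K₁ ^ 16 := by norm_num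
      rw [← h4]
      exact hS1
    rw [h1]
    linarith
  have hαN : 1 / (24 * K₁ ^ 16) * N ≤ ((A'.image g).card : ℝ) := by
    rw [hBc]
    have h1 : 1 / (24 * K₁ ^ 16) * N ≤ 1 / (24 * K₁ ^ 16) * (3 * (K₁ ^ 16 * A.card)) :=
      mul_le_mul_of_nonneg_left hNle hα.le
    have h2 : 1 / (24 * K₁ ^ 16) * (3 * (K₁ ^ 16 * A.card)) = (A.card : ℝ) / 8 := by
      have h5 : K₁ ^ 16 ≠ 0 := by positivity
      field_simp
      norm_num
    have h3 : (A.card : ℝ) ≤ 8 * A'.card := by exact_mod_cast hA'c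
    linarith
  obtain ⟨R, hR1, hR2⟩ := hBOG N (A'.image g) (1 / (24 * K₁ ^ 16)) hα hαN
  have hRD : R.card ≤ ⌊2 / (1 / (24 * K₁ ^ 16)) ^ 2⌋₊ := Nat.le_floor hR1
  obtain ⟨q, L, hq1, hq2, hq3⟩ := hbpr N R hRD
  have hrep : ∀ x, Box L x → ∃ a ∈ A', ∃ b ∈ A', ∃ c ∈ A', ∃ e ∈ A',
      ∑ i, x i • q i = g a + g b - g c - g e := by
    intro x hx
    obtain ⟨a, ha, b, hb, c', hc', e, he, h⟩ :=
      hR2 (∑ i, x i • q i) (fun r hr => by
        have := hq2 x hx r hr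
        exact_mod_cast this)
    obtain ⟨a1, ha1, rfl⟩ := Finset.mem_image.1 ha
    obtain ⟨b1, hb1, rfl⟩ := Finset.mem_image.1 hb
    obtain ⟨c1, hc1, rfl⟩ := Finset.mem_image.1 hc'
    obtain ⟨e1, he1, rfl⟩ := Finset.mem_image.1 he
    exact ⟨a1, ha1, b1, hb1, c1, hc1, e1, he1, h⟩
  obtain ⟨G, hG1, hG2⟩ := hPUL N _ A' g q L hiso hq1 hrep
  refine hcvr A G L hA hsm1 hG1 ?_ ?_
  · intro x hx
    obtain ⟨a, ha, b, hb, c', hc', e, he, h⟩ := hG2 x hx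
    exact ⟨a, hA'A ha, b, hA'A hb, c', hA'A hc', e, hA'A he, h⟩
  · have h1 : (A.card : ℝ) ≤ N := by
      have : A.card ≤ N := by omega
      exact_mod_cast this
    exact (mul_le_mul_of_nonneg_left h1 hc.le).trans hq3

end Pool.Agent.FRE.H23
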